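import Pool.Agent.MP_c6cf52_lc.W.Real

/-! Re-realization of limit colourings, layers of closed sets, typical points. -/

namespace Pool.Agent.MP_c6cf52_lc.W

open Cardinal Set Sis

universe u

variable {κ : Cardinal.{u}} {m : ℕ} {P : Type u} {c : K κ → K κ → P → Fin m}

/-- same colours on all small points -/
def Agr (c : K κ → K κ → P → Fin m) (ξ : K κ) (b b' : P) : Prop :=
  ∀ ν < ξ, ∀ x < ξ, c ν x b' = c ν x b

/-- the limit colouring is realized in every row -/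
def Rows (c : K κ → K κ → P → Fin m) (π : K κ → P → Fin m) (S : Set P) : Prop :=
  ∀ ν, Real (fun b x => c ν x b) S (π ν)

theorem Rows.mono {π : K κ → P → Fin m} {S S' : Set P} (h : Rows c π S) (e : S' ⊆ S) :
    Rows c π S' := fun ν s hs hl => h ν s (hs.trans e) hl

theorem rerealize (hκ : κ.IsInaccessible) (hw : WC κ m) {Λ : Type u} (hΛ : #Λ < κ)
    {T S Y : Set P} (hT : T ⊆ S) (hS : #S ≤ κ) (hY : #Y ≤ κ) (hne : S.Nonempty)
    (hne' : Y.Nonempty) (hd : ∀ b ∈ Y, b ∉ S) (hcl : Closed c T S) {R : Λ → Set P}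
    (hR : ∀ σ, R σ ⊆ S) (hR' : ∀ σ, S \ T ⊆ R σ) {π : Λ → K κ → P → Fin m}
    (hπ : ∀ σ, Rows c (π σ) (R σ)) :
    ∃ φ : Λ → K κ → P → Fin m,
      (∀ σ (π' : K κ → P → Fin m), (∀ ν, ∀ b ∈ R σ, π' ν b = π σ ν b) →
        (∀ ν, ∀ b ∈ Y, π' ν b = φ σ ν b) → Rows c π' (R σ ∪ Y)) ∧
      (∀ σ σ', (∀ ν, ∀ b ∈ S \ T, π σ ν b = π σ' ν b) → ∀ ν b, φ σ ν b = φ σ' ν b) ∧
      ∀ b ∈ Y, ∀ (ξ : K κ) (y : Set P), #y < κ →
        ∃ b' ∈ S \ T, b' ∉ y ∧ Agr c ξ b b' ∧ ∀ σ, ∀ ν < ξ, π σ ν b' = φ σ ν b := by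
  classical
  have h := kap_of_inacc hκ
  obtain ⟨z, iz, hz, hz'⟩ := exists_enum hS hne
  obtain ⟨e, ie, he, he'⟩ := exists_enum hY hne'
  choose cp hcp hdat using fun ξ : K κ => hcl ξ (fun β => z β) (fun β => e β) (fun β => hz β)
    fun β hβ => hd _ (he β) (hβ.elim (fun r => hT r) fun ⟨γ, r⟩ => r ▸ hz γ)
  have hcp' : ∀ ξ β, cp ξ β ∈ S \ T := fun ξ β => ⟨(hcp ξ β).1, fun t => (hcp ξ β).2 (Or.inl t)⟩
  obtain ⟨φ, hφ⟩ := hw (Λ × K κ × K κ)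
    (fun p ξ => if r : p.2.2 < ξ then π p.1 p.2.1 (cp ξ ⟨p.2.2, r⟩) else c p.2.1 ξ (z ξ)) univ
    (by
      simp only [mk_univ, mk_prod, lift_id, mk_toType, card_ord, mul_eq_self h.inf]
      exact (mul_le_mul' hΛ.le le_rfl).trans (mul_eq_self h.inf).le)
  refine ⟨fun σ ν b => φ (σ, ν, ie b), fun σ π' p1 p2 ν s hs hl => ?_, fun σ σ' hσ ν b => ?_,
    fun b hb ξ y hy => ?_⟩
  · obtain ⟨ξ₀, h₀⟩ := h.bdd (s := iz '' s ∪ ie '' s ∪ {ν})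
      (h.lt2 (h.lt2 (mk_image_le.trans_lt hl) (mk_image_le.trans_lt hl))
        (h.fin (finite_singleton _)))
    obtain ⟨ξ, hξ, h₁⟩ := hφ ((fun b => (σ, ν, ie b)) '' s) (subset_univ _)
      (mk_image_le.trans_lt hl) ξ₀
    have hν : ν < ξ := (h₀ ν (Or.inr rfl)).trans h₁
    have u1 := hπ σ ν (s ∩ R σ ∪ range (cp ξ))
      (union_subset inter_subset_right (range_subset_iff.2 fun β => hR' σ (hcp' ξ β)))
      (h.lt2 ((mk_le_mk_of_subset inter_subset_left).trans_lt hl)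
        (mk_range_le.trans_lt (iio_lt ξ)))
    obtain ⟨p, hp⟩ := u1.pig h (fin_lt (m := m) hκ (iio_lt ξ)) fun x (β : Iio ξ) => c ν x (z β)
    obtain ⟨x₀, hx₀, -⟩ := hp ξ
    have u2 : (⟨ν, hν⟩, p, fun β => π σ ν (cp ξ β)) ∈ (dat c ξ (fun β => z β) (cp ξ)).2 :=
      hp.mono fun x hx β => ⟨congrFun hx.2 β, hx.1 _ (Or.inr ⟨β, rfl⟩)⟩
    rw [hdat] at u2
    refine Unb.mono u2 fun x hx b hb => ?_
    rcases hs hb with r | r
    · have l : iz b < ξ := (h₀ _ (Or.inl (Or.inl ⟨b, hb, rfl⟩))).trans h₁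
      have a1 := (hx ⟨iz b, l⟩).1
      have a2 := congrFun hx₀.2 ⟨iz b, l⟩
      simp only [hz' b (hR σ r)] at a1 a2
      rw [p1 ν b r]
      exact (a1.trans a2.symm).trans (hx₀.1 b (Or.inl ⟨hb, r⟩))
    · have r' : ie b < ξ := (h₀ _ (Or.inl (Or.inr ⟨b, hb, rfl⟩))).trans h₁
      have := (hx ⟨ie b, r'⟩).2
      simp only [he' b r] at this
      have a := hξ _ ⟨b, hb, rfl⟩
      simp only [dif_pos r'] at a
      exact (this.trans a).trans (p2 ν b r).symm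
  · refine hφ.eq h (mem_univ _) (mem_univ _) fun ξ => ?_
    by_cases r : ie b < ξ
    · simp only [dif_pos r]
      exact hσ ν _ (hcp' ξ _)
    · simp only [dif_neg r]
  · obtain ⟨ξ₀, h₀⟩ := h.bdd (s := iz '' y ∪ {ie b, ξ})
      (h.lt2 (mk_image_le.trans_lt hy) (h.fin (toFinite _)))
    obtain ⟨ξ', hξ, h₁⟩ := hφ (range fun p : Λ × Iio ξ => (p.1, p.2.1, ie b)) (subset_univ _)
      (mk_range_le.trans_lt (prod_lt hκ hΛ (iio_lt ξ))) ξ₀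
    have r' : ie b < ξ' := (h₀ _ (Or.inr (Or.inl rfl))).trans h₁
    have r'' : ξ < ξ' := (h₀ _ (Or.inr (Or.inr rfl))).trans h₁
    have q := hcp ξ' ⟨ie b, r'⟩
    refine ⟨cp ξ' ⟨ie b, r'⟩, hcp' _ _, fun t => q.2 (Or.inr
      ⟨⟨iz _, (h₀ _ (Or.inl ⟨_, t, rfl⟩)).trans h₁⟩, hz' _ q.1⟩), fun ν hν x hx => ?_,
      fun σ ν hν => ?_⟩
    · have := congrFun (congrFun (congrFun (congrArg Prod.fst (hdat ξ')) ⟨ν, hν.trans r''⟩)
        ⟨x, hx.trans r''⟩) ⟨ie b, r'⟩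
      simpa only [dat, he' b hb] using this
    · have a := hξ _ ⟨(σ, ⟨ν, hν⟩), rfl⟩
      simp only [dif_pos r'] at a
      exact a

variable {Θ : Type u} [LinearOrder Θ]

/-- the union of the earlier members of a chain -/
def Bel (S : ℕ ×ₗ Θ → Set P) (j : ℕ ×ₗ Θ) : Set P := ⋃ j' < j, S j'

/-- the interval with index `(k, t)` -/
def Itv (S : ℕ ×ₗ Θ → Set P) (k : ℕ) (t : Θ) : Set P := S (toLex (k, t)) \ Bel S (toLex (k, t))

/-- a layer -/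
def Lay (S : ℕ ×ₗ Θ → Set P) (k : ℕ) : Set P := ⋃ t, Itv S k t

/-- the intervals below the cuts of `σ` in the first `n` layers -/
def Low (S : ℕ ×ₗ Θ → Set P) (n : ℕ) (σ : ℕ → Θ) : Set P :=
  {b | ∃ k < n, ∃ t ≤ σ k, b ∈ Itv S k t}

/-- a chain of closed sets -/
structure Chain (c : K κ → K κ → P → Fin m) (S : ℕ ×ₗ Θ → Set P) : Prop where
  sub : ∀ j, Bel S j ⊆ S j
  card : ∀ j, #(S j) ≤ κ
  cl : ∀ j, Closed c (Bel S j) (S j)
  ne : ∀ j, (S j \ Bel S j).Nonempty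

theorem exists_chain [WellFoundedLT Θ] (hκ : κ.IsInaccessible) (hΘ : #Θ < κ) (hP : κ < #P)
    (c : K κ → K κ → P → Fin m) (g : P → Set P) (hg : ∀ p, #(g p) ≤ κ) :
    ∃ S : ℕ ×ₗ Θ → Set P, Chain c S ∧ ∀ j, ∀ p ∈ S j, g p ⊆ S j := by
  have h := kap_of_inacc hκ
  have hJ : #(ℕ ×ₗ Θ) ≤ κ := by
    change #(ℕ × Θ) ≤ κ
    simp only [mk_prod, mk_nat, lift_aleph0, lift_uzero]
    exact (mul_le_mul' h.inf hΘ.le).trans (mul_eq_self h.inf).le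
  obtain ⟨S, hS⟩ := exists_rec (α := ℕ ×ₗ Θ) (Z := Set P)
    (fun j G S => (⋃ j', ⋃ (r : j' < j), G j' r) ⊆ S ∧ #S ≤ κ ∧
      Closed c (⋃ j', ⋃ (r : j' < j), G j' r) S ∧
      (S \ ⋃ j', ⋃ (r : j' < j), G j' r).Nonempty ∧ ∀ p ∈ S, g p ⊆ S) fun j G hG => by
      have hT : #(⋃ j', ⋃ (r : j' < j), G j' r) ≤ κ := h.leU hJ fun j' => by
        by_cases r : j' < j
        · exact (mk_le_mk_of_subset (iUnion_subset fun _ => subset_rfl)).trans (hG j' r).2.1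
        · exact (mk_le_mk_of_subset (iUnion_subset fun r' => (r r').elim)).trans
            (h.fin finite_empty).le
      obtain ⟨p, -, hp⟩ := h.ne (h.lgD (s := univ) (by simpa using hP) hT).le
      obtain ⟨S', h1, h2, h3, h4⟩ := exists_closed hκ c g hg _ (_ ∪ {p})
        (h.le2 hT (h.fin (finite_singleton p)).le)
      exact ⟨S', subset_union_left.trans h1, h2, h3, ⟨p, h1 (Or.inr rfl), hp⟩, h4⟩
  exact ⟨S, ⟨fun j => (hS j).1, fun j => (hS j).2.1, fun j => (hS j).2.2.1,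
    fun j => (hS j).2.2.2.1⟩, fun j => (hS j).2.2.2.2⟩

variable {S : ℕ ×ₗ Θ → Set P}

theorem sub_bel {j j' : ℕ ×ₗ Θ} (e : j' < j) : S j' ⊆ Bel S j := fun _ hx =>
  mem_iUnion₂.2 ⟨j', e, hx⟩

theorem Chain.mono (H : Chain c S) {j j' : ℕ ×ₗ Θ} (e : j' ≤ j) : S j' ⊆ S j := by
  rcases e.eq_or_lt with rfl | e
  · exact subset_rfl
  · exact (sub_bel e).trans (H.sub j)

theorem lay_not {k k' : ℕ} (e : k' < k) {b : P} (hb : b ∈ Lay S k) (t : Θ) :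
    b ∉ S (toLex (k', t)) := fun r => by
  obtain ⟨t', ht'⟩ := mem_iUnion.1 hb
  exact ht'.2 (sub_bel (Prod.Lex.toLex_lt_toLex.2 (Or.inl e)) r)

theorem lay_disj {k k' : ℕ} (e : k' < k) {b : P} (hb : b ∈ Lay S k') : b ∉ Lay S k := fun r => by
  obtain ⟨t', ht'⟩ := mem_iUnion.1 hb
  exact lay_not e r t' ht'.1

theorem itv_lay (k : ℕ) (t : Θ) : Itv S k t ⊆ Lay S k := subset_iUnion (Itv S k) t

/-- the limit colourings of all choices of cuts -/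
structure Str (c : K κ → K κ → P → Fin m) (S : ℕ ×ₗ Θ → Set P) (n : ℕ)
    (π : (ℕ → Θ) → K κ → P → Fin m) : Prop where
  rows : ∀ σ, Rows c (π σ) (Low S n σ ∪ Lay S n)
  dep : ∀ k ≤ n, ∀ σ σ', (∀ j < k, σ j = σ' j) → ∀ ν, ∀ b ∈ Lay S k, π σ ν b = π σ' ν b
  lim : ∀ k < n, ∀ θ, ∀ b ∈ Lay S (k + 1), ∀ (ξ : K κ) (y : Set P), #y < κ →
    ∃ b' ∈ Itv S k θ, b' ∉ y ∧ Agr c ξ b b' ∧ ∀ σ, σ k = θ → ∀ ν < ξ, π σ ν b' = π σ ν b

theorem exists_str [Nonempty Θ] (hκ : κ.IsInaccessible) (hw : WC κ m) (hΘ : #Θ < κ)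
    (H : Chain c S) (n : ℕ) : ∃ π, Str c S n π := by
  classical
  have h := kap_of_inacc hκ
  have hL : ∀ k, #(Lay S k) ≤ κ := fun k => h.leU hΘ.le fun t =>
    (mk_le_mk_of_subset sdiff_subset).trans (H.card _)
  induction n with
  | zero =>
    choose π hπ using fun ν => hw P (fun b x => c ν x b) (Lay S 0) (hL 0)
    refine ⟨fun _ => π, fun σ => Rows.mono (S := Lay S 0) hπ ?_, fun _ _ _ _ _ _ _ _ => rfl,
      fun k hk => absurd hk (Nat.not_lt_zero k)⟩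
    rintro b (⟨k, hk, -⟩ | hb)
    · exact absurd hk (Nat.not_lt_zero k)
    · exact hb
  | succ n ih =>
    obtain ⟨π, hπ⟩ := ih
    obtain ⟨t₀⟩ := ‹Nonempty Θ›
    have low : ∀ θ σ, Low S (n + 1) (Function.update σ n θ) ⊆ Low S n σ ∪ Lay S n := by
      rintro θ σ b ⟨k, hk, t, ht, hb⟩
      rcases (Nat.lt_succ_iff.1 hk).eq_or_lt with rfl | r
      · exact Or.inr (itv_lay _ _ hb)
      · rw [Function.update_of_ne r.ne] at ht
        exact Or.inl ⟨k, r, t, ht, hb⟩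
    choose φ f1 f2 f3 using fun θ : Θ => rerealize hκ hw (seq_lt hκ hΘ) (H.sub (toLex (n, θ)))
      (H.card _) (hL (n + 1)) ((H.ne _).mono sdiff_subset)
      ((H.ne (toLex (n + 1, t₀))).mono (itv_lay (n + 1) t₀))
      (fun b hb => lay_not (Nat.lt_succ_self n) hb θ) (H.cl _)
      (R := fun σ => Low S (n + 1) (Function.update σ n θ))
      (fun σ => by
        rintro b ⟨k, hk, t, ht, hb⟩
        refine H.mono ?_ hb.1
        rcases (Nat.lt_succ_iff.1 hk).eq_or_lt with rfl | r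
        · rw [Function.update_self] at ht
          exact Prod.Lex.toLex_le_toLex.2 (Or.inr ⟨rfl, ht⟩)
        · exact Prod.Lex.toLex_le_toLex.2 (Or.inl r))
      (fun σ b hb => ⟨n, Nat.lt_succ_self n, θ, by rw [Function.update_self], hb⟩)
      (π := π) fun σ => (hπ.rows σ).mono (low θ σ)
    let π' : (ℕ → Θ) → K κ → P → Fin m := fun σ ν b =>
      if b ∈ Lay S (n + 1) then φ (σ n) σ ν b else π σ ν b
    have p1 : ∀ σ ν, ∀ k ≤ n, ∀ b ∈ Lay S k, π' σ ν b = π σ ν b := fun σ ν k hk b hb =>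
      if_neg (lay_disj (Nat.lt_succ_of_le hk) hb)
    have p2 : ∀ σ ν, ∀ b ∈ Lay S (n + 1), π' σ ν b = φ (σ n) σ ν b := fun σ ν b hb => if_pos hb
    refine ⟨π', fun σ => ?_, fun k hk σ σ' e ν b hb => ?_, fun k hk θ b hb ξ y hy => ?_⟩
    · have := f1 (σ n) σ (π' σ) (by
        rintro ν b ⟨k, hk, t, -, hb⟩
        exact p1 σ ν k (Nat.lt_succ_iff.1 hk) b (itv_lay _ _ hb)) (p2 σ)
      rwa [Function.update_eq_self] at this
    · rcases hk.eq_or_lt with rfl | r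
      · rw [p2 σ ν b hb, p2 σ' ν b hb, ← e n (Nat.lt_succ_self n)]
        exact f2 _ σ σ' (fun ν b hb => hπ.dep n le_rfl σ σ'
          (fun j hj => e j (hj.trans (Nat.lt_succ_self n))) ν b (itv_lay _ _ hb)) ν b
      · rw [p1 σ ν k (Nat.lt_succ_iff.1 r) b hb, p1 σ' ν k (Nat.lt_succ_iff.1 r) b hb]
        exact hπ.dep k (Nat.lt_succ_iff.1 r) σ σ' e ν b hb
    · rcases (Nat.lt_succ_iff.1 hk).eq_or_lt with rfl | r
      · obtain ⟨b', r1, r2, r3, r4⟩ := f3 θ b hb ξ y hy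
        refine ⟨b', r1, r2, r3, fun σ e ν hν => ?_⟩
        rw [p1 σ ν k le_rfl b' (itv_lay _ _ r1), p2 σ ν b hb, e]
        exact r4 σ ν hν
      · obtain ⟨b', r1, r2, r3, r4⟩ := hπ.lim k r θ b hb ξ y hy
        refine ⟨b', r1, r2, r3, fun σ e ν hν => ?_⟩
        rw [p1 σ ν k r.le b' (itv_lay _ _ r1), p1 σ ν (k + 1) r b hb]
        exact r4 σ e ν hν

/-- typical points: `s j τ` is the value of `v` at the typical point of layer `j` on the path `τ` -/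
def Ty {V : Type u} (c : K κ → K κ → P → Fin m) (S : ℕ ×ₗ Θ → Set P)
    (π : (ℕ → Θ) → K κ → P → Fin m) (v : P → V) : ℕ → P → (ℕ → (ℕ → Θ) → V) → Prop
  | 0, b, s => ∀ τ, s 0 τ = v b
  | k + 1, b, s => (∀ τ, s (k + 1) τ = v b) ∧ ∀ θ, ∃ s' : ℕ → (ℕ → Θ) → V,
      (∀ j ≤ k, ∀ τ, τ k = θ → s j τ = s' j τ) ∧ ∀ (ξ : K κ) (y : Set P), #y < κ →
        ∃ b' ∈ Itv S k θ, b' ∉ y ∧ Agr c ξ b b' ∧
          (∀ σ, σ k = θ → ∀ ν < ξ, π σ ν b' = π σ ν b) ∧ Ty c S π v k b' s'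

variable {V : Type u} {π : (ℕ → Θ) → K κ → P → Fin m} {v : P → V}

theorem Ty.val {k : ℕ} {b : P} {s : ℕ → (ℕ → Θ) → V} (h : Ty c S π v k b s) (τ : ℕ → Θ) :
    s k τ = v b := by
  cases k with
  | zero => exact h τ
  | succ k => exact h.1 τ

theorem exists_ty (hκ : κ.IsInaccessible) (hΘ : #Θ < κ) (hV : #V < κ) {n : ℕ}
    (H : Str c S n π) (v : P → V) (k : ℕ) (hk : k ≤ n) :
    ∀ b ∈ Lay S k, ∃ s, Ty c S π v k b s := by
  have h := kap_of_inacc hκ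
  induction k with
  | zero => exact fun b _ => ⟨fun _ _ => v b, fun _ => rfl⟩
  | succ k ih =>
    intro b hb
    have key : ∀ θ, ∃ s' : ℕ → (ℕ → Θ) → V, ∀ (ξ : K κ) (y : Set P), #y < κ →
        ∃ b' ∈ Itv S k θ, b' ∉ y ∧ Agr c ξ b b' ∧
          (∀ σ, σ k = θ → ∀ ν < ξ, π σ ν b' = π σ ν b) ∧ Ty c S π v k b' s' := fun θ => by
      by_contra hn
      simp only [not_exists, not_forall] at hn
      choose ξ y hy hn using hn
      have sm := seq_lt hκ (fn_lt hκ (seq_lt hκ hΘ) hV)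
      obtain ⟨ξ', hξ⟩ := h.bdd (s := range ξ) (mk_range_le.trans_lt sm)
      obtain ⟨b', r1, r2, r3, r4⟩ := H.lim k hk θ b hb ξ' (⋃ s, y s) (h.ltU sm hy)
      obtain ⟨s, hs⟩ := ih (Nat.le_of_succ_le hk) b' (itv_lay _ _ r1)
      have l := hξ _ ⟨s, rfl⟩
      exact hn s b' ⟨r1, fun t => r2 (mem_iUnion.2 ⟨s, t⟩),
        fun ν hν x hx => r3 ν (hν.trans l) x (hx.trans l),
        fun σ e ν hν => r4 σ e ν (hν.trans l), hs⟩
    choose s' hs' using key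
    refine ⟨fun j τ => if j ≤ k then s' (τ k) j τ else v b, fun τ => if_neg (by omega),
      fun θ => ⟨s' θ, fun j hj τ e => ?_, hs' θ⟩⟩
    simp only [if_pos hj, e]

theorem Ty.down (h : Kap κ) {k l : ℕ} (hl : l ≤ k) {b : P} {s : ℕ → (ℕ → Θ) → V}
    (H : Ty c S π v k b s) (τ : ℕ → Θ) :
    ∃ b' s', (b' = b ∧ l = k ∨ l < k ∧ b' ∈ Itv S l (τ l)) ∧ Ty c S π v l b' s' ∧
      ∀ j ≤ l, ∀ τ', (∀ r, l ≤ r → τ' r = τ r) → s j τ' = s' j τ' := by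
  induction k generalizing b s with
  | zero =>
    obtain rfl := Nat.le_zero.1 hl
    exact ⟨b, s, Or.inl ⟨rfl, rfl⟩, H, fun _ _ _ _ => rfl⟩
  | succ k ih =>
    rcases hl.eq_or_lt with rfl | r
    · exact ⟨b, s, Or.inl ⟨rfl, rfl⟩, H, fun _ _ _ _ => rfl⟩
    have r' := Nat.lt_succ_iff.1 r
    obtain ⟨s₁, e1, e2⟩ := H.2 (τ k)
    obtain ⟨ξ, -⟩ := h.ne (s := (univ : Set (K κ))) (by simp)
    obtain ⟨b₁, r1, -, -, -, r2⟩ := e2 ξ ∅ (h.fin finite_empty)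
    obtain ⟨b', s', t1, t2, t3⟩ := ih r' r2
    refine ⟨b', s', Or.inr ⟨r, ?_⟩, t2, fun j hj τ' e =>
      (e1 j (hj.trans r') τ' (e k r')).trans (t3 j hj τ' e)⟩
    rcases t1 with ⟨rfl, rfl⟩ | t1
    · exact r1
    · exact t1.2

theorem Ty.lim {k l : ℕ} (hl : l < k) {b : P} {s : ℕ → (ℕ → Θ) → V}
    (H : Ty c S π v k b s) (τ : ℕ → Θ) (ξ : K κ) (y : Set P) (hy : #y < κ) :
    ∃ b' ∈ Itv S l (τ l), b' ∉ y ∧ Agr c ξ b b' ∧ (∀ ν < ξ, π τ ν b' = π τ ν b) ∧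
      v b' = s l τ := by
  induction k generalizing b s with
  | zero => omega
  | succ k ih =>
    have r' := Nat.lt_succ_iff.1 hl
    obtain ⟨s₁, e1, e2⟩ := H.2 (τ k)
    obtain ⟨b₁, r1, r2, r3, r4, r5⟩ := e2 ξ y hy
    rcases r'.eq_or_lt with rfl | r
    · exact ⟨b₁, r1, r2, r3, r4 τ rfl, ((e1 l le_rfl τ rfl).trans (r5.val τ)).symm⟩
    · obtain ⟨b', t1, t2, t3, t4, t5⟩ := ih r r5
      exact ⟨b', t1, t2, fun ν hν x hx => (t3 ν hν x hx).trans (r3 ν hν x hx),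
        fun ν hν => (t4 ν hν).trans (r4 τ rfl ν hν), t5.trans (e1 l r' τ rfl).symm⟩

end Pool.Agent.MP_c6cf52_lc.W
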