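import Pool.Agent.MP_c6cf52_lc.Sis.Main

/-! Limit colourings at a weakly compact cardinal, copies of small tuples. -/

namespace Pool.Agent.MP_c6cf52_lc.W

open Cardinal Set Sis

universe u

variable {κ : Cardinal.{u}} {m : ℕ}

/-- the well order of type `κ` -/
abbrev K (κ : Cardinal.{u}) : Type u := κ.ord.ToType

/-- unbounded sets -/
def Unb (S : Set (K κ)) : Prop := ∀ β, ∃ x ∈ S, β < x

theorem Unb.mono {S S' : Set (K κ)} (h : Unb S) (e : S ⊆ S') : Unb S' := fun β =>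
  let ⟨x, hx, hb⟩ := h β
  ⟨x, e hx, hb⟩

/-- every small part of the pattern `v` is realized unboundedly often -/
def Real {Γ : Type u} (f : Γ → K κ → Fin m) (D : Set Γ) (v : Γ → Fin m) : Prop :=
  ∀ s ⊆ D, #s < κ → Unb {x | ∀ γ ∈ s, f γ x = v γ}

/-- the compactness form of weak compactness -/
def WC (κ : Cardinal.{u}) (m : ℕ) : Prop :=
  ∀ (Γ : Type u) (f : Γ → K κ → Fin m) (D : Set Γ), #D ≤ κ → ∃ v, Real f D v

theorem iic_lt (h : Kap κ) (k : K κ) : #(Iic k) < κ := by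
  rw [← Iio_union_right]
  exact h.lt2 (iio_lt k) (h.fin (finite_singleton k))

theorem unb_of_card (h : Kap κ) {H : Set (K κ)} (hH : κ ≤ #H) : Unb H := fun β => by
  obtain ⟨x, hx, hx'⟩ := h.ne (h.geD hH (iic_lt h β))
  exact ⟨x, hx, not_le.1 hx'⟩

theorem card_of_unb (h : Kap κ) {H : Set (K κ)} (hH : Unb H) : κ ≤ #H := le_of_not_gt fun e => by
  obtain ⟨k, hk⟩ := h.bdd e
  obtain ⟨x, hx, hx'⟩ := hH k
  exact (hk x hx).not_gt hx'

theorem exists_enum {Γ : Type u} {D : Set Γ} (hD : #D ≤ κ) (hne : D.Nonempty) :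
    ∃ (e : K κ → Γ) (idx : Γ → K κ), (∀ k, e k ∈ D) ∧ ∀ γ ∈ D, e (idx γ) = γ := by
  classical
  obtain ⟨g⟩ : Nonempty (D ↪ K κ) := (Cardinal.le_def _ _).1 (by simpa using hD)
  have : Nonempty D := hne.to_subtype
  obtain ⟨γ₀, h₀⟩ := hne
  refine ⟨fun k => (Function.invFun g k).1, fun γ => if h : γ ∈ D then g ⟨γ, h⟩ else g ⟨γ₀, h₀⟩,
    fun k => (Function.invFun g k).2, fun γ hγ => ?_⟩
  simp only [dif_pos hγ]
  rw [Function.leftInverse_invFun g.injective]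

theorem ev_const {H : Set (K κ)} (hH : Unb H) (g : K κ → Fin m) (β : K κ)
    (hg : (∀ x ∈ H, ∀ y ∈ H, β < x → x < y → g x ≤ g y) ∨
      ∀ x ∈ H, ∀ y ∈ H, β < x → x < y → g y ≤ g x) :
    ∃ β' w, ∀ x ∈ H, β' < x → g x = w := by
  have hne : (g '' {x | x ∈ H ∧ β < x}).Nonempty := by
    obtain ⟨x, hx, hb⟩ := hH β
    exact ⟨_, x, ⟨hx, hb⟩, rfl⟩
  rcases hg with hg | hg
  · obtain ⟨_, ⟨x, hx, rfl⟩, hm⟩ := wellFounded_gt.has_min _ hne
    exact ⟨x, g x, fun y hy e => le_antisymm (not_lt.1 (hm _ ⟨y, ⟨hy, hx.2.trans e⟩, rfl⟩))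
      (hg x hx.1 y hy hx.2 e)⟩
  · obtain ⟨_, ⟨x, hx, rfl⟩, hm⟩ := wellFounded_lt.has_min _ hne
    exact ⟨x, g x, fun y hy e => le_antisymm (hg x hx.1 y hy hx.2 e)
      (not_lt.1 (hm _ ⟨y, ⟨hy, hx.2.trans e⟩, rfl⟩))⟩

theorem wc_of_part (h : Kap κ)
    (hp : ∀ d : K κ → K κ → Fin 2, ∃ H : Set (K κ), #H = κ ∧
      ∃ i, ∀ x ∈ H, ∀ y ∈ H, x < y → d x y = i) (m : ℕ) : WC κ m := by
  classical
  intro Γ f D hD
  obtain ⟨x₀, -⟩ := h.ne (s := (univ : Set (K κ))) (by simp)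
  rcases D.eq_empty_or_nonempty with rfl | hne
  · refine ⟨fun γ => f γ x₀, fun s hs _ => ?_⟩
    refine (unb_of_card h (H := univ) (by simp)).mono fun x _ γ hγ => (hs hγ).elim
  obtain ⟨e, idx, -, he⟩ := exists_enum hD hne
  obtain ⟨H, hH, i, hi⟩ := hp fun x y =>
    if ∃ k, (∀ k' < k, f (e k') x = f (e k') y) ∧ f (e k) x < f (e k) y then 1 else 0
  have hU := unb_of_card h hH.ge
  have ev : ∀ k, ∃ β w, ∀ x ∈ H, β < x → f (e k) x = w := fun k => by
    induction k using WellFoundedLT.induction with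
    | ind k ih =>
      choose β w hw using fun j : Iio k => ih j.1 j.2
      obtain ⟨β', hβ⟩ := h.bdd (s := range β) (mk_range_le.trans_lt (iio_lt k))
      have ag : ∀ x ∈ H, ∀ y ∈ H, β' < x → x < y → ∀ k' < k, f (e k') x = f (e k') y :=
        fun x hx y hy e1 e2 k' hk =>
          (hw ⟨k', hk⟩ x hx ((hβ _ ⟨_, rfl⟩).trans e1)).trans
            (hw ⟨k', hk⟩ y hy ((hβ _ ⟨_, rfl⟩).trans (e1.trans e2))).symm
      refine ev_const hU _ β' ?_
      by_cases h1 : i = 1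
      · refine Or.inl fun x hx y hy e1 e2 => ?_
        have := hi x hx y hy e2
        split_ifs at this with hc
        · obtain ⟨j, hj, hj'⟩ := hc
          rcases lt_trichotomy j k with r | rfl | r
          · exact absurd (ag x hx y hy e1 e2 j r) hj'.ne
          · exact hj'.le
          · exact (hj k r).le
        · exact absurd (this.trans h1) (by decide)
      · refine Or.inr fun x hx y hy e1 e2 => ?_
        have := hi x hx y hy e2
        split_ifs at this with hc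
        · exact absurd this.symm h1
        · exact not_lt.1 fun r => hc ⟨k, ag x hx y hy e1 e2, r⟩
  choose β w hw using ev
  refine ⟨fun γ => w (idx γ), fun s hs hl β₀ => ?_⟩
  obtain ⟨β', hβ⟩ := h.bdd (s := (fun γ => β (idx γ)) '' s) (mk_image_le.trans_lt hl)
  obtain ⟨x, hx, hb⟩ := hU (max β₀ β')
  refine ⟨x, fun γ hγ => ?_, (le_max_left _ _).trans_lt hb⟩
  beta_reduce
  rw [← hw (idx γ) x hx ((hβ _ ⟨γ, hγ, rfl⟩).trans ((le_max_right _ _).trans_lt hb)),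
    he γ (hs hγ)]

variable {P : Type u}

/-- the data of a tuple that a copy has to keep -/
abbrev Dat (m : ℕ) (ξ : K κ) : Type u :=
  (Iio ξ → Iio ξ → Iio ξ → Fin m) × Set (Iio ξ × (Iio ξ → Fin m) × (Iio ξ → Fin m))

/-- colours on small points and the table of unboundedly realized patterns -/
def dat (c : K κ → K κ → P → Fin m) (ξ : K κ) (z y : Iio ξ → P) : Dat m ξ :=
  (fun ν x β => c ν x (y β),
    {t | Unb {x | ∀ β, c t.1 x (z β) = t.2.1 β ∧ c t.1 x (y β) = t.2.2 β}})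

/-- `S` contains copies of all small tuples that avoid `T` -/
def Closed (c : K κ → K κ → P → Fin m) (T S : Set P) : Prop :=
  ∀ (ξ : K κ) (z y : Iio ξ → P), (∀ β, z β ∈ S) → (∀ β, y β ∉ T ∪ range z) →
    ∃ y' : Iio ξ → P, (∀ β, y' β ∈ S ∧ y' β ∉ T ∪ range z) ∧ dat c ξ z y' = dat c ξ z y

theorem pow_lt (hκ : κ.IsInaccessible) {a b : Cardinal.{u}} (ha : a < κ) (hb : b < κ) :
    a ^ b < κ := by
  refine lt_of_le_of_lt (power_le_power_right (cantor a).le) ?_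
  rw [← power_mul]
  exact hκ.isStrongLimit.isStrongPrelimit (mul_lt_of_lt hκ.isRegular.aleph0_le ha hb)

theorem fn_lt (hκ : κ.IsInaccessible) {A B : Type u} (ha : #A < κ) (hb : #B < κ) :
    #(A → B) < κ := by
  rw [← power_def]
  exact pow_lt hκ hb ha

theorem fin_lt (hκ : κ.IsInaccessible) {A : Type u} (ha : #A < κ) : #(A → Fin m) < κ := by
  refine lt_of_le_of_lt (mk_le_of_injective (f := fun (t : A → Fin m) a => ULift.up.{u} (t a))
    fun t t' e => funext fun a => congrArg ULift.down (congrFun e a)) (fn_lt hκ ha ?_)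
  exact (lt_aleph0_of_finite _).trans hκ.aleph0_lt

theorem prod_lt (hκ : κ.IsInaccessible) {A B : Type u} (ha : #A < κ) (hb : #B < κ) :
    #(A × B) < κ := by
  rw [mk_prod, lift_id, lift_id]
  exact mul_lt_of_lt hκ.isRegular.aleph0_le ha hb

theorem dat_lt (hκ : κ.IsInaccessible) (ξ : K κ) : #(Dat m ξ) < κ := by
  have i := iio_lt ξ
  refine prod_lt hκ (fn_lt hκ i (fn_lt hκ i (fin_lt hκ i))) ?_
  rw [mk_set]
  exact hκ.isStrongLimit.isStrongPrelimit (prod_lt hκ i (prod_lt hκ (fin_lt hκ i) (fin_lt hκ i)))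

theorem kap_of_inacc (hκ : κ.IsInaccessible) : Kap κ := by
  refine ⟨hκ.isRegular, fun θ hθ => ?_⟩
  have hr := hκ.isRegular
  have e : (univ : Set (θ.out → K κ)) ⊆ ⋃ k : K κ, {t | ∀ a, t a ∈ Iio k} := fun t _ => by
    by_contra hn
    simp only [mem_iUnion, not_exists, mem_ofPred_eq, not_forall, mem_Iio, not_lt] at hn
    have e' : (univ : Set (K κ)) ⊆ ⋃ a : θ.out, Iio (t a) ∪ {t a} := fun k _ => by
      obtain ⟨a, ha⟩ := hn k
      exact mem_iUnion.2 ⟨a, ha.lt_or_eq⟩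
    have := (mk_le_mk_of_subset e').trans_lt
      ((card_iUnion_lt_iff_forall_of_isRegular hr (by simpa using hθ)).2 fun a =>
        (mk_union_le _ _).trans_lt (add_lt_of_lt hr.aleph0_le (iio_lt _)
          ((finite_singleton _).lt_aleph0.trans_le hr.aleph0_le)))
    simp at this
  have := (mk_le_mk_of_subset e).trans ((mk_iUnion_le _).trans (mul_le_mul' (le_refl _)
    (ciSup_le' (a := κ) fun k => ((mk_maps _).trans_lt
      (pow_lt hκ (iio_lt k) (by simpa using hθ))).le)))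
  rw [mk_univ, ← power_def] at this
  simpa [mul_eq_self hr.aleph0_le] using this

theorem exists_closed (hκ : κ.IsInaccessible) (c : K κ → K κ → P → Fin m) (g : P → Set P)
    (hg : ∀ p, #(g p) ≤ κ) (T T' : Set P) (hT : #T' ≤ κ) :
    ∃ S, T' ⊆ S ∧ #S ≤ κ ∧ Closed c T S ∧ ∀ p ∈ S, g p ⊆ S := by
  classical
  have h := kap_of_inacc hκ
  have w : ∀ (ξ : K κ) (z : Iio ξ → P) (d : Dat m ξ), ∃ y' : Iio ξ → P, ∀ y : Iio ξ → P,
      (∀ β, y β ∉ T ∪ range z) → dat c ξ z y = d →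
        (∀ β, y' β ∉ T ∪ range z) ∧ dat c ξ z y' = d := fun ξ z d => by
    by_cases e : ∃ y : Iio ξ → P, (∀ β, y β ∉ T ∪ range z) ∧ dat c ξ z y = d
    · obtain ⟨y, hy⟩ := e
      exact ⟨y, fun _ _ _ => hy⟩
    · exact ⟨z, fun y h1 h2 => (e ⟨y, h1, h2⟩).elim⟩
  choose w hw using w
  obtain ⟨S, hS, hcl⟩ := h.closure (fun s => (T' ∪ ⋃ p : s, g p) ∪ ⋃ ξ : K κ,
      ⋃ z : {t : Iio ξ → P | ∀ x, t x ∈ s}, ⋃ d : Dat m ξ, range (w ξ z.1 d)) fun s hs =>
    h.le2 (h.le2 hT (h.leU hs.le fun p => hg p)) (h.leU (by simp) fun ξ => h.leU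
      ((mk_maps s).trans (pow_lt hκ hs (iio_lt ξ)).le) fun z => h.leU (dat_lt hκ ξ).le
        fun d => mk_range_le.trans (iio_lt ξ).le)
  refine ⟨S, (subset_union_left.trans subset_union_left).trans
    (hcl ∅ (empty_subset _) (h.fin finite_empty)), hS, fun ξ z y hz hy => ?_, fun p hp x hx =>
      hcl {p} (singleton_subset_iff.2 hp) (h.fin (finite_singleton p))
        (Or.inl (Or.inr (mem_iUnion.2 ⟨⟨p, rfl⟩, hx⟩)))⟩
  have := hw ξ z _ y hy rfl
  refine ⟨w ξ z (dat c ξ z y), fun β => ⟨?_, this.1 β⟩, this.2⟩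
  refine hcl (range z) (range_subset_iff.2 hz) (mk_range_le.trans_lt (iio_lt ξ)) (Or.inr ?_)
  exact mem_iUnion.2 ⟨ξ, mem_iUnion.2 ⟨⟨z, fun x => ⟨x, rfl⟩⟩, mem_iUnion.2 ⟨_, β, rfl⟩⟩⟩

theorem Unb.pig (h : Kap κ) {U : Set (K κ)} (hU : Unb U) {A : Type u} (hA : #A < κ)
    (f : K κ → A) : ∃ a, Unb {x | x ∈ U ∧ f x = a} := by
  by_contra hn
  simp only [Unb, not_exists, not_forall, not_and, not_lt] at hn
  choose β hβ using hn
  obtain ⟨k, hk⟩ := h.bdd (s := range β) (mk_range_le.trans_lt hA)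
  obtain ⟨x, hx, hx'⟩ := hU k
  exact ((hk _ ⟨f x, rfl⟩).trans hx').not_ge (hβ (f x) x ⟨hx, rfl⟩)

theorem Real.eq (h : Kap κ) {Γ : Type u} {f : Γ → K κ → Fin m} {D : Set Γ} {v : Γ → Fin m}
    (H : Real f D v) {a b : Γ} (ha : a ∈ D) (hb : b ∈ D) (e : ∀ x, f a x = f b x) :
    v a = v b := by
  obtain ⟨x₀, -⟩ := h.ne (s := (univ : Set (K κ))) (by simp)
  obtain ⟨x, hx, -⟩ := H {a, b} (insert_subset ha (singleton_subset_iff.2 hb))
    (h.fin (toFinite _)) x₀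
  rw [← hx a (Or.inl rfl), ← hx b (Or.inr rfl), e]

theorem exists_rec {α Z : Type*} [Preorder α] [WellFoundedLT α] [Nonempty Z]
    (R : (k : α) → ((j : α) → j < k → Z) → Z → Prop)
    (h : ∀ (k : α) (g : (j : α) → j < k → Z),
      (∀ j (hj : j < k), R j (fun j' h' => g j' (h'.trans hj)) (g j hj)) → ∃ z, R k g z) :
    ∃ F : α → Z, ∀ k, R k (fun j _ => F j) (F k) := by
  classical
  let F : α → Z := (wellFounded_lt (α := α)).fix fun k g => Classical.epsilon (R k g)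
  have hF : ∀ k, F k = Classical.epsilon (R k fun j _ => F j) := fun k =>
    (wellFounded_lt (α := α)).fix_eq _ k
  refine ⟨F, fun k => ?_⟩
  induction k using WellFoundedLT.induction with
  | ind k ih =>
    rw [hF]
    exact Classical.epsilon_spec (h k _ fun j hj => ih j hj)

theorem seq_lt (hκ : κ.IsInaccessible) {A : Type u} (ha : #A < κ) : #(ℕ → A) < κ := by
  refine lt_of_le_of_lt (mk_le_of_injective (f := fun (t : ℕ → A) (n : ULift.{u} ℕ) => t n.down)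
    fun t t' e => funext fun a => congrFun e ⟨a⟩) (fn_lt hκ ?_ ha)
  simpa using hκ.aleph0_lt

theorem fiber {A B : Type u} {ρ : Cardinal.{u}} (hρ : ℵ₀ ≤ ρ) (hB : #B ≤ ρ) (hA : ρ < #A)
    (f : A → B) : ∃ b, ρ < #{a | f a = b} := by
  by_contra hn
  push Not at hn
  have e : (univ : Set A) ⊆ ⋃ b, {a | f a = b} := fun a _ => mem_iUnion.2 ⟨f a, rfl⟩
  have := (mk_le_mk_of_subset e).trans ((mk_iUnion_le _).trans (mul_le_mul' hB (ciSup_le' hn)))
  rw [mk_univ, mul_eq_self hρ] at this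
  exact hA.not_ge this

/-- a cube that is covered by finitely many sets contains a long line in one of them -/
theorem line (hκ : κ.IsInaccessible) {μ : Cardinal.{u}} (hμ : μ < κ) (n : ℕ) :
    ∃ l < κ, 0 < l ∧ ∀ (Θ : Type u) (E : Set Θ), l ≤ #E → ∀ Q : ℕ → (ℕ → Θ) → Prop,
      (∀ σ, (∀ r, σ r ∈ E) → ∃ k < n, Q k σ) →
        ∃ k < n, ∃ σ, μ < #{t | Q k (Function.update σ k t)} := by
  induction n with
  | zero =>
    refine ⟨1, one_lt_aleph0.trans hκ.aleph0_lt, one_pos, fun Θ E hE Q hQ => ?_⟩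
    obtain ⟨⟨t, ht⟩⟩ := mk_ne_zero_iff.1 (one_pos.trans_le hE).ne'
    obtain ⟨k, hk, -⟩ := hQ (fun _ => t) fun _ => ht
    omega
  | succ n ih =>
    obtain ⟨l, hl, hl0, H⟩ := ih
    have i0 := hκ.isRegular.aleph0_le
    have b1 : l ^ ℵ₀ * μ < κ := mul_lt_of_lt i0 (pow_lt hκ hl hκ.aleph0_lt) hμ
    refine ⟨Order.succ (max l (l ^ ℵ₀ * μ)), hκ.isSuccLimit.succ_lt (max_lt hl b1),
      (zero_le).trans_lt (Order.lt_succ _), fun Θ E hE Q hQ => ?_⟩
    have hE' := Order.succ_le_iff.1 hE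
    obtain ⟨E', e1, e2⟩ := le_mk_iff_exists_subset.1 ((le_max_left _ _).trans hE'.le)
    by_contra hn
    push Not at hn
    have c1 : #{σ : ℕ → Θ | ∀ r, σ r ∈ E'} ≤ l ^ ℵ₀ := by
      refine (mk_le_of_injective (f := fun σ (r : ULift.{u} ℕ) => (⟨σ.1 r.down, σ.2 _⟩ : E'))
        fun t t' e => Subtype.ext (funext fun a => congrArg Subtype.val (congrFun e ⟨a⟩))).trans ?_
      rw [← power_def, e2]
      simp
    have c2 : #(⋃ σ : {σ : ℕ → Θ | ∀ r, σ r ∈ E'}, {t | Q n (Function.update σ.1 n t)}) ≤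
        l ^ ℵ₀ * μ :=
      (mk_iUnion_le _).trans (mul_le_mul' c1 (ciSup_le' fun σ => hn n (Nat.lt_succ_self n) _))
    obtain ⟨t₀, t1, t2⟩ : ∃ t ∈ E, t ∉ ⋃ σ : {σ : ℕ → Θ | ∀ r, σ r ∈ E'},
        {t | Q n (Function.update σ.1 n t)} := by
      by_contra hc
      push Not at hc
      exact (((le_max_right _ _).trans_lt hE').trans_le (mk_le_mk_of_subset hc)).not_ge c2
    obtain ⟨k, hk, σ, hσ⟩ := H Θ E' e2.ge (fun k σ => Q k (Function.update σ n t₀)) fun σ hσ => by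
      obtain ⟨k, hk, hq⟩ := hQ (Function.update σ n t₀) fun r => by
        by_cases e : r = n
        · rw [e, Function.update_self]; exact t1
        · rw [Function.update_of_ne e]; exact e1 (hσ r)
      refine ⟨k, lt_of_le_of_ne (Nat.lt_succ_iff.1 hk) fun e => t2 (mem_iUnion.2 ⟨⟨σ, hσ⟩, ?_⟩), hq⟩
      exact e ▸ hq
    refine hσ.not_ge (le_of_eq_of_le ?_ (hn k (hk.trans (Nat.lt_succ_self n))
      (Function.update σ n t₀)))
    congr 3 with t
    rw [Function.update_comm hk.ne]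

end Pool.Agent.MP_c6cf52_lc.W
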