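import Pool.Agent.MP_c6cf52_lc.W.Layer

/-! The rectangle of type `κ * κ * ξ` below `κ * ξ` at a weakly compact cardinal. -/

namespace Pool.Agent.MP_c6cf52_lc.W

open Cardinal Set Sis

universe u

variable {κ : Cardinal.{u}} {m : ℕ} {P : Type u}

theorem build (h : Kap κ) {c : K κ → K κ → P → Fin m} {Ξ Ω : Type u} (hΞ : #Ξ < κ) (hΩ : #Ω < κ)
    (enc : Ω → K κ → K κ) {S : Set P} {π : K κ → P → Fin m} (hπ : Rows c π S) {q : P}
    (hq : q ∈ S) (G : Ξ → Set P) (hG : ∀ t, G t ⊆ S) (Good : K κ → Prop) (i : Fin m)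
    (g0 : ∀ ν, Good ν → π ν q = i)
    (H1 : ∀ ω (y : Set P), (∀ b ∈ y, ∃ t, b ∈ G t) → #y < κ →
      Unb {ν | Good (enc ω ν) ∧ ∀ b ∈ y, π (enc ω ν) b = i})
    (H2 : ∀ t (ξ : K κ) (y : Set P), #y < κ →
      ∃ b ∈ G t, b ∉ y ∧ Agr c ξ q b ∧ ∀ ν < ξ, Good ν → π ν b = i) :
    ∃ B : Ξ → Set P, (∀ t, B t ⊆ G t ∧ κ ≤ #(B t)) ∧
      ∀ ω, Unb {ν | Unb {x | ∀ t, ∀ b ∈ B t, c (enc ω ν) x b = i}} := by
  classical
  obtain ⟨k₀, -⟩ := h.ne (s := (univ : Set (K κ))) (by simp)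
  have : Nonempty ((Ω → K κ) × (K κ → K κ) × (Ξ → P)) := ⟨fun _ => k₀, id, fun _ => q⟩
  have pr : ∀ {A B : Type u}, #A < κ → #B < κ → #(A × B) < κ := fun ha hb => by
    rw [mk_prod, lift_id, lift_id]
    exact mul_lt_of_lt h.inf ha hb
  obtain ⟨F, hF⟩ := exists_rec (α := K κ) (Z := (Ω → K κ) × (K κ → K κ) × (Ξ → P))
    (fun k g z => (∀ ω, k < z.1 ω) ∧ (∀ ω, Good (enc ω (z.1 ω))) ∧
      (∀ ω j hj t, π (enc ω (z.1 ω)) ((g j hj).2.2 t) = i) ∧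
      (∀ t, z.2.2 t ∈ G t) ∧ (∀ t j hj, z.2.2 t ≠ (g j hj).2.2 t) ∧
      ∀ ν, (∃ ω, ν = enc ω (z.1 ω) ∨ ∃ j hj, enc ω ((g j hj).1 ω) = ν) →
        k < z.2.1 ν ∧ c ν (z.2.1 ν) q = i ∧
        (∀ j hj t, c ν (z.2.1 ν) ((g j hj).2.2 t) = i) ∧ (∀ t, π ν (z.2.2 t) = i) ∧
        (∀ t, c ν (z.2.1 ν) (z.2.2 t) = i) ∧
        ∀ j hj t, c ν ((g j hj).2.1 ν) (z.2.2 t) = c ν ((g j hj).2.1 ν) q) fun k g hg => by
      let y : Set P := range fun p : Iio k × Ξ => (g p.1.1 p.1.2).2.2 p.2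
      have hy : #y < κ := mk_range_le.trans_lt (pr (iio_lt k) hΞ)
      have hyG : ∀ b ∈ y, ∃ t, b ∈ G t := by
        rintro _ ⟨p, rfl⟩
        exact ⟨p.2, (hg _ p.1.2).2.2.2.1 p.2⟩
      have hy' : #(y ∪ {q} : Set P) < κ := h.lt2 hy (h.fin (finite_singleton q))
      have hyS : y ∪ {q} ⊆ S := union_subset (fun b hb => (hyG b hb).elim fun t ht => hG t ht)
        (singleton_subset_iff.2 hq)
      choose r hr1 hr2 using fun ω => H1 ω y hyG hy k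
      let Rw : Set (K κ) := range (fun ω => enc ω (r ω)) ∪
        range fun p : Iio k × Ω => enc p.2 ((g p.1.1 p.1.2).1 p.2)
      have hRw : #Rw < κ :=
        h.lt2 (mk_range_le.trans_lt hΩ) (mk_range_le.trans_lt (pr (iio_lt k) hΩ))
      have mR : ∀ ν, (∃ ω, ν = enc ω (r ω) ∨ ∃ j hj, enc ω ((g j hj).1 ω) = ν) → ν ∈ Rw :=
        fun ν ⟨ω, hν⟩ => hν.imp (fun e => ⟨ω, e.symm⟩) fun ⟨j, hj, e⟩ => ⟨(⟨j, hj⟩, ω), e⟩
      have pq : ∀ ν ∈ Rw, Good ν := by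
        rintro ν (⟨ω, rfl⟩ | ⟨p, rfl⟩)
        · exact (hr1 ω).1
        · exact (hg _ p.1.2).2.1 p.2
      have pb : ∀ ν ∈ Rw, ∀ j hj t, π ν ((g j hj).2.2 t) = i := by
        rintro ν (⟨ω, rfl⟩ | ⟨⟨⟨j', hj'⟩, ω⟩, rfl⟩) j hj t
        · exact (hr1 ω).2 _ ⟨(⟨j, hj⟩, t), rfl⟩
        · rcases lt_trichotomy j j' with e | e | e
          · exact (hg j' hj').2.2.1 ω j e t
          · subst e
            exact ((hg _ hj).2.2.2.2.2 _ ⟨ω, Or.inl rfl⟩).2.2.2.1 t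
          · exact ((hg j hj).2.2.2.2.2 _ ⟨ω, Or.inr ⟨j', e, rfl⟩⟩).2.2.2.1 t
      choose x hx hx' using fun ν => hπ ν _ hyS hy' k
      obtain ⟨ξ, hξ⟩ := h.bdd (s := Rw ∪ x '' Rw ∪ ⋃ j : Iio k, (g j.1 j.2).2.1 '' Rw)
        (h.lt2 (h.lt2 hRw (mk_image_le.trans_lt hRw))
          (h.ltU (iio_lt k) fun j => mk_image_le.trans_lt hRw))
      choose b b1 b2 b3 b4 using fun t => H2 t ξ y hy
      refine ⟨(r, x, b), hr2, fun ω => (hr1 ω).1,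
        fun ω j hj t => (hr1 ω).2 _ ⟨(⟨j, hj⟩, t), rfl⟩, b1,
        fun t j hj e => b2 t ⟨(⟨j, hj⟩, t), e.symm⟩, fun ν hν => ?_⟩
      have hν' := mR ν hν
      have l1 : ν < ξ := hξ ν (Or.inl (Or.inl hν'))
      have c1 : c ν (x ν) q = i := (hx ν q (Or.inr rfl)).trans (g0 ν (pq ν hν'))
      exact ⟨hx' ν, c1,
        fun j hj t => (hx ν _ (Or.inl ⟨(⟨j, hj⟩, t), rfl⟩)).trans (pb ν hν' j hj t),
        fun t => b4 t ν l1 (pq ν hν'),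
        fun t => (b3 t ν l1 _ (hξ _ (Or.inl (Or.inr ⟨ν, hν', rfl⟩)))).trans c1,
        fun j hj t => b3 t ν l1 _ (hξ _ (Or.inr (mem_iUnion.2 ⟨⟨j, hj⟩, ν, hν', rfl⟩)))⟩
  refine ⟨fun t => range fun k => (F k).2.2 t, fun t => ⟨range_subset_iff.2 fun k =>
    (hF k).2.2.2.1 t, ?_⟩, fun ω β => ⟨(F β).1 ω, fun β' => ?_, (hF β).1 ω⟩⟩
  · rw [mk_range_eq _ fun k l e => ?_]
    · simp
    · rcases lt_trichotomy k l with r | r | r
      · exact absurd e.symm ((hF l).2.2.2.2.1 t k r)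
      · exact r
      · exact absurd e ((hF k).2.2.2.2.1 t l r)
  · have row : ∀ k, β ≤ k → ∃ ω', enc ω ((F β).1 ω) = enc ω' ((F k).1 ω') ∨
        ∃ j, ∃ _ : j < k, enc ω' ((F j).1 ω') = enc ω ((F β).1 ω) :=
      fun k e => ⟨ω, (eq_or_lt_of_le e).imp (fun t => congrArg (fun j => enc ω ((F j).1 ω)) t)
        fun t => ⟨β, t, rfl⟩⟩
    have a := (hF (max β β')).2.2.2.2.2 _ (row _ (le_max_left _ _))
    refine ⟨(F (max β β')).2.1 (enc ω ((F β).1 ω)), ?_, (le_max_right _ _).trans_lt a.1⟩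
    rintro t _ ⟨l, rfl⟩
    rcases lt_trichotomy l (max β β') with r | r | r
    · exact a.2.2.1 l r t
    · exact r ▸ a.2.2.2.2.1 t
    · exact (((hF l).2.2.2.2.2 _ (row l ((le_max_left _ _).trans r.le))).2.2.2.2.2 _ r t).trans
        a.2.1

theorem core (hκ : κ.IsInaccessible) (hw : WC κ m) [LinearOrder P] (hP : κ < #P)
    (ini : ∀ p : P, #(Iic p) ≤ κ) (c : K κ → K κ → K κ → P → Fin m) {Ξ : Type u}
    [LinearOrder Ξ] [WellFoundedLT Ξ] (hΞ : #Ξ < κ) :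
    ∃ (B : Ξ → Set P) (u : Ξ → K κ) (i : Fin m), StrictMono u ∧ (∀ t, κ ≤ #(B t)) ∧
      (∀ t t', t < t' → ∀ b ∈ B t, ∀ b' ∈ B t', b < b') ∧
      ∀ ω, Unb {ν | Unb {x | ∀ t, ∀ b ∈ B t, c (u ω) ν x b = i}} := by
  classical
  have h := kap_of_inacc hκ
  have hΞ' : #(WithTop Ξ) < κ := by
    change #(Option Ξ) < κ
    rw [mk_option]
    exact add_lt_of_lt h.inf hΞ (one_lt_aleph0.trans hκ.aleph0_lt)
  have hΞ'' : #Ξ ≤ #(WithTop Ξ) := mk_le_of_injective WithTop.coe_injective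
  have hμ : max ℵ₀ #(WithTop Ξ) < κ := max_lt hκ.aleph0_lt hΞ'
  obtain ⟨l₀, hl₀, hl₁, hline⟩ := line hκ hμ m
  let Θ := l₀.ord.ToType
  have hΘ : #Θ < κ := by simpa [Θ] using hl₀
  have : Nonempty Θ := by
    rw [← mk_ne_zero_iff]
    simpa [Θ] using hl₁.ne'
  obtain ⟨t₀⟩ := id this
  have hΛ := seq_lt hκ hΘ
  have cnt : ∀ (A : Type) [Countable A], #(ULift.{u} A) ≤ ℵ₀ := fun A _ => mk_le_aleph0
  let ρ := max (max ℵ₀ #(WithTop Ξ)) #((ℕ → Θ) → ULift.{u} (ℕ × ℕ × Fin m))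
  have hρ : ρ < κ := max_lt hμ (fn_lt hκ hΛ ((cnt _).trans_lt hκ.aleph0_lt))
  let Ω := (Order.succ ρ).ord.ToType
  have hΩ : #Ω < κ := by simpa [Ω] using hκ.isSuccLimit.succ_lt hρ
  have hΩ' : ρ < #Ω := by simp [Ω]
  obtain ⟨emb, hemb, -⟩ := exists_tall (Ξ := Ω) (S := (univ : Set (K κ))) (by simpa using hΩ)
  obtain ⟨dec, idx, -, hdec⟩ := exists_enum (κ := κ) (D := (univ : Set (Ω × K κ)))
    (by
      simp only [mk_univ, mk_prod, lift_id, mk_toType, card_ord]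
      exact (mul_le_mul' (by simpa [Ω] using hΩ.le) le_rfl).trans (mul_eq_self h.inf).le)
    (by
      obtain ⟨k₀, -⟩ := h.ne (s := (univ : Set (K κ))) (by simp)
      obtain ⟨ω⟩ := mk_ne_zero_iff.1 (zero_le.trans_lt hΩ').ne'
      exact ⟨(ω, k₀), mem_univ _⟩)
  let c' : K κ → K κ → P → Fin m := fun ν x b => c (emb (dec ν).1) (dec ν).2 x b
  obtain ⟨S, hS, hlow⟩ := exists_chain hκ hΘ hP c' (fun p => Iic p) ini
  obtain ⟨π, hπ⟩ := exists_str hκ hw hΘ hS m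
  have hD : #{p : (ℕ → Θ) × P | p.2 ∈ S (toLex (m + 1, t₀))} ≤ κ := by
    refine (mk_le_of_injective (f := fun p => (p.1.1, (⟨p.1.2, p.2⟩ : S (toLex (m + 1, t₀)))))
      fun p p' e => Subtype.ext (Prod.ext (Prod.ext_iff.1 e).1
        (Subtype.ext_iff.1 (Prod.ext_iff.1 e).2))).trans ?_
    rw [mk_prod, lift_id, lift_id]
    exact (mul_le_mul' hΛ.le (hS.card _)).trans (mul_eq_self h.inf).le
  have inD : ∀ k ≤ m, ∀ b ∈ Lay S k, b ∈ S (toLex (m + 1, t₀)) := fun k hk b hb => by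
    obtain ⟨t, ht⟩ := mem_iUnion.1 hb
    exact hS.mono (Prod.Lex.toLex_le_toLex.2 (Or.inl (Nat.lt_succ_of_le hk))) ht.1
  choose iw hiw using fun ω : Ω =>
    hw ((ℕ → Θ) × P) (fun p ν => π p.1 (idx (ω, ν)) p.2) _ hD
  obtain ⟨q, hq⟩ := hS.ne (toLex (m, t₀))
  have hq' : q ∈ Lay S m := itv_lay m t₀ hq
  obtain ⟨s, hs⟩ := exists_ty hκ hΘ (fin_lt (m := m) hκ (prod_lt hκ hΛ hΩ)) hπ
    (fun b (p : (ℕ → Θ) × Ω) => iw p.2 (p.1, b)) m le_rfl q hq'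
  have pig : ∀ (ω : Ω) (σ : ℕ → Θ), ∃ z : ULift.{u} (ℕ × ℕ × Fin m), z.down.1 < z.down.2.1 ∧
      z.down.2.1 ≤ m ∧ s z.down.1 σ (σ, ω) = z.down.2.2 ∧
      s z.down.2.1 σ (σ, ω) = z.down.2.2 := fun ω σ => by
    obtain ⟨a, b, hab, e⟩ := Fintype.exists_ne_map_eq_of_card_lt
      (fun j : Fin (m + 1) => s j σ (σ, ω)) (by simp)
    rcases lt_or_gt_of_ne hab with r | r
    · exact ⟨⟨a, b, _⟩, r, Nat.lt_succ_iff.1 b.2, e, rfl⟩
    · exact ⟨⟨b, a, _⟩, r, Nat.lt_succ_iff.1 a.2, e.symm, rfl⟩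
  choose χ hχ using pig
  obtain ⟨χ₀, h₀⟩ := fiber ((le_max_left _ _).trans (le_max_left _ _)) (le_max_right _ _) hΩ' χ
  obtain ⟨u, hu, hu'⟩ := exists_tall (Ξ := Ξ) (S := {a | χ a = χ₀})
    ((hΞ''.trans ((le_max_right _ _).trans (le_max_left _ _))).trans_lt h₀)
  obtain ⟨ω₀, hω₀⟩ : {a | χ a = χ₀}.Nonempty := by
    rw [← Set.nonempty_coe_sort, ← mk_ne_zero_iff]
    exact (zero_le.trans_lt h₀).ne'
  obtain ⟨l, hl, σ, hσ⟩ := hline Θ univ (by simp [Θ]) (fun k σ => (χ₀ σ).down.1 = k)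
    fun σ _ => ⟨_, by
      have := hχ ω₀ σ
      rw [hω₀] at this
      exact this.1.trans_le this.2.1, rfl⟩
  obtain ⟨⟨l', i⟩, hf⟩ := fiber (le_max_left _ _) ((cnt (ℕ × Fin m)).trans (le_max_left _ _)) hσ
    fun t => ULift.up (χ₀ (Function.update σ l t.1)).down.2
  obtain ⟨e, he, he'⟩ := exists_tall (Ξ := WithTop Ξ) ((le_max_right _ _).trans_lt hf)
  let τ : WithTop Ξ → ℕ → Θ := fun t => Function.update σ l (e t).1
  have τl : ∀ t, τ t l = (e t).1 := fun t => Function.update_self ..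
  have τr : ∀ t r, r ≠ l → τ t r = σ r := fun t r hr => Function.update_of_ne hr ..
  have key : ∀ t ω, χ ω = χ₀ → l < l' ∧ l' ≤ m ∧ s l (τ t) (τ t, ω) = i ∧
      s l' (τ t) (τ t, ω) = i := fun t ω hω => by
    have a := hχ ω (τ t)
    have b : (χ₀ (τ t)).down.1 = l := (e t).2
    have d : (χ₀ (τ t)).down.2 = (l', i) := congrArg ULift.down (he' t)
    rw [hω, b, d] at a
    exact a
  have ll := (key ⊤ ω₀ hω₀).1
  have lm := (key ⊤ ω₀ hω₀).2.1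
  obtain ⟨b, s', b1, b2, b3⟩ := hs.down h lm σ
  have ss : ∀ t, ∀ j ≤ l', s j (τ t) = s' j (τ t) := fun t j hj =>
    b3 j hj _ fun r hr => τr t r (by omega)
  have bl : b ∈ Lay S l' := by
    rcases b1 with ⟨rfl, rfl⟩ | b1
    · exact hq'
    · exact itv_lay _ _ b1.2
  have dp : ∀ t ν, ∀ b ∈ Lay S l, π (τ ⊤) ν b = π (τ t) ν b := fun t ν b hb =>
    hπ.dep l hl.le _ _ (fun j hj => (τr _ j hj.ne).trans (τr _ j hj.ne).symm) ν b hb
  obtain ⟨B, hB, hB'⟩ := build h hΞ hΞ (fun ω ν => idx (u ω, ν)) (hπ.rows (τ ⊤)) (q := b)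
    (by
      rcases b1 with ⟨rfl, rfl⟩ | b1
      · exact Or.inr hq'
      · exact Or.inl ⟨l', b1.1, _, (τr ⊤ l' ll.ne').ge, b1.2⟩)
    (fun t : Ξ => {b | b ∈ Itv S l (e t).1 ∧ ∀ ω, iw (u ω) (τ t, b) = i})
    (fun t b hb => Or.inl ⟨l, hl, _, by
      rw [τl]
      exact Subtype.coe_le_coe.2 (he.monotone le_top), hb.1⟩)
    (fun ν => ∀ t, π (τ t) ν b = i) i (fun ν hν => hν ⊤)
    (fun ω y hy hl' => by
      refine (hiw (u ω) (range fun p : WithTop Ξ × (y ∪ {b} : Set P) => (τ p.1, p.2.1)) ?_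
        (mk_range_le.trans_lt (prod_lt hκ hΞ'
          (h.lt2 hl' (h.fin (finite_singleton b)))))).mono fun ν hν => ⟨fun t => ?_, fun a ha => ?_⟩
      · rintro _ ⟨⟨t, a, ha | rfl⟩, rfl⟩
        · obtain ⟨t', ht'⟩ := hy a ha
          exact inD l hl.le a (itv_lay _ _ ht'.1)
        · exact inD l' lm _ bl
      · refine (hν _ ⟨(t, ⟨b, Or.inr rfl⟩), rfl⟩).trans ?_
        have := congrFun ((ss t l' le_rfl).trans (b2.val (τ t))) (τ t, u ω)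
        exact this.symm.trans (key t _ (hu' ω)).2.2.2
      · obtain ⟨t, ht⟩ := hy a ha
        exact (dp t _ a (itv_lay _ _ ht.1)).trans
          ((hν _ ⟨((t : WithTop Ξ), ⟨a, Or.inl ha⟩), rfl⟩).trans (ht.2 ω)))
    fun t ξ y hy => by
      obtain ⟨a, a1, a2, a3, a4, a5⟩ := b2.lim ll (τ t) ξ y hy
      rw [τl] at a1
      refine ⟨a, ⟨a1, fun ω => ?_⟩, a2, a3, fun ν hν g =>
        (dp t ν a (itv_lay _ _ a1)).trans ((a4 ν hν).trans (g t))⟩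
      exact (congrFun (a5.trans (ss t l ll.le).symm) (τ t, u ω)).trans (key t _ (hu' ω)).2.2.1
  refine ⟨B, fun ω => emb (u ω), i, hemb.comp hu, fun t => (hB t).2,
    fun t t' r a ha a' ha' => lt_of_not_ge fun le => ?_, fun ω => ?_⟩
  · have r' : (e t).1 < (e t').1 := Subtype.coe_lt_coe.2 (he (WithTop.coe_lt_coe.2 r))
    have r'' : toLex (l, (e t).1) < toLex (l, (e t').1) :=
      Prod.Lex.toLex_lt_toLex.2 (Or.inr ⟨rfl, r'⟩)
    refine ((hB t').1 ha').1.2 (sub_bel r'' ?_)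
    exact hlow _ a ((hB t).1 ha).1.1 le
  · simpa only [c', hdec _ (mem_univ _)] using hB' ω

theorem type_range {α O : Type u} [LinearOrder α] [WellFoundedLT α] [LinearOrder O]
    [WellFoundedLT O] {f : α → O} (hf : StrictMono f) :
    Ordinal.type (α := range f) (· < ·) = Ordinal.type (α := α) (· < ·) :=
  Ordinal.type_eq.2 ⟨(hf.orderIso _).symm.toRelIsoLT⟩

theorem exists_seq {O : Type u} [LinearOrder O] [WellFoundedLT O] {S : Set O} (h : κ ≤ #S) :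
    ∃ t : K κ → O, StrictMono t ∧ ∀ x, t x ∈ S :=
  exists_mono (by rw [Ordinal.type_toType]; exact ord_le_ord.2 h)

theorem type_lex (α β : Type u) [LinearOrder α] [WellFoundedLT α] [LinearOrder β]
    [WellFoundedLT β] : Ordinal.type (α := α ×ₗ β) (· < ·) =
      Ordinal.type (α := β) (· < ·) * Ordinal.type (α := α) (· < ·) :=
  Ordinal.type_prod_lex (α := β) (β := α) (· < ·) (· < ·)

theorem rect (hκ : κ.IsInaccessible)
    (hp : ∀ d : K κ → K κ → Fin 2, ∃ H : Set (K κ), #H = κ ∧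
      ∃ i, ∀ x ∈ H, ∀ y ∈ H, x < y → d x y = i)
    {O : Type u} [LinearOrder O] [WellFoundedLT O] (hO : κ < #O) (ini : ∀ a : O, #(Iic a) ≤ κ)
    (c : O → O → Fin m) {ξ : Ordinal.{u}} (hξ : ξ < κ.ord) :
    ∃ A B : Set O, Ordinal.type (α := A) (· < ·) = κ.ord * κ.ord * ξ ∧
      Ordinal.type (α := B) (· < ·) = κ.ord * ξ ∧ (∀ a ∈ A, ∀ b ∈ B, a < b) ∧
      ∃ i, ∀ a ∈ A, ∀ b ∈ B, c a b = i := by
  have h := kap_of_inacc hκ
  have c3 : #(K κ ×ₗ (K κ ×ₗ K κ)) = κ := by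
    change #(K κ × (K κ × K κ)) = κ
    simp [mul_eq_self h.inf]
  obtain ⟨e, he, -⟩ := exists_tall (Ξ := K κ ×ₗ (K κ ×ₗ K κ)) (S := (univ : Set O))
    (by rw [c3]; simpa using hO)
  have hY : κ < #(univ \ ⋃ p, Iic (e p) : Set O) :=
    h.lgD (by simpa using hO) (h.leU c3.le fun p => ini _)
  obtain ⟨B, u, i, hu, hB, hB', hR⟩ := core hκ (wc_of_part h hp m) hY
    (fun p => (mk_le_of_injective (f := fun x : Iic p => (⟨x.1.1, x.2⟩ : Iic p.1))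
      fun x y r => Subtype.ext (Subtype.ext (Subtype.mk.inj r))).trans (ini _))
    (fun ω ν x b => c (e (toLex (ω, toLex (ν, x)))) b.1) (Ξ := ξ.ToType)
    (by simpa using lt_ord.1 hξ)
  choose r hr hr' using fun ω => exists_seq (card_of_unb h (hR ω))
  choose s hs hs' using fun ω k => exists_seq (card_of_unb h (hr' ω k))
  choose t ht ht' using fun ω => exists_seq (hB ω)
  have m1 : StrictMono fun p : ξ.ToType ×ₗ (K κ ×ₗ K κ) => e (toLex (u (ofLex p).1,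
      toLex (r (ofLex p).1 (ofLex (ofLex p).2).1,
        s (ofLex p).1 (ofLex (ofLex p).2).1 (ofLex (ofLex p).2).2))) := fun p p' l => by
    refine he ?_
    rcases Prod.Lex.lt_iff.1 l with l | ⟨l, l'⟩
    · exact Prod.Lex.toLex_lt_toLex.2 (Or.inl (hu l))
    · refine Prod.Lex.toLex_lt_toLex.2 (Or.inr ⟨congrArg u l, ?_⟩)
      rw [← l]
      rcases Prod.Lex.lt_iff.1 l' with a | ⟨a, a'⟩
      · exact Prod.Lex.toLex_lt_toLex.2 (Or.inl (hr _ a))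
      · exact Prod.Lex.toLex_lt_toLex.2 (Or.inr ⟨congrArg (r _) a, a ▸ hs _ _ a'⟩)
  have m2 : StrictMono fun p : ξ.ToType ×ₗ K κ => (t (ofLex p).1 (ofLex p).2 : O) :=
    fun p p' l => by
      refine Subtype.coe_lt_coe.2 ?_
      rcases Prod.Lex.lt_iff.1 l with l | ⟨l, l'⟩
      · exact hB' _ _ l _ (ht' _ _) _ (ht' _ _)
      · rw [← l]
        exact ht _ l'
  refine ⟨_, _, (type_range m1).trans ?_, (type_range m2).trans ?_, ?_, i, ?_⟩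
  · rw [type_lex, type_lex, Ordinal.type_toType, Ordinal.type_toType]
  · rw [type_lex, Ordinal.type_toType, Ordinal.type_toType]
  · rintro _ ⟨p, rfl⟩ _ ⟨k, rfl⟩
    exact lt_of_not_ge fun l => (t (ofLex k).1 (ofLex k).2).2.2 (mem_iUnion.2 ⟨_, l⟩)
  · rintro _ ⟨p, rfl⟩ _ ⟨k, rfl⟩
    exact hs' _ _ _ _ _ (ht' _ _)

theorem rect_succ (hκ : κ.IsInaccessible)
    (hp : ∀ d : K κ → K κ → Fin 2, ∃ H : Set (K κ), #H = κ ∧
      ∃ i, ∀ x ∈ H, ∀ y ∈ H, x < y → d x y = i)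
    (c : (Order.succ κ).ord.ToType → (Order.succ κ).ord.ToType → Fin m) {ξ : Ordinal.{u}}
    (hξ : ξ < κ.ord) :
    ∃ A B : Set (Order.succ κ).ord.ToType, Ordinal.type (α := A) (· < ·) = κ.ord * κ.ord * ξ ∧
      Ordinal.type (α := B) (· < ·) = κ.ord * ξ ∧ (∀ a ∈ A, ∀ b ∈ B, a < b) ∧
      ∃ i, ∀ a ∈ A, ∀ b ∈ B, c a b = i := by
  have h := kap_of_inacc hκ
  refine rect hκ hp (by simp) (fun a => ?_) c hξ
  rw [← Iio_union_right]
  exact h.le2 (Order.lt_succ_iff.1 (iio_lt a)) (h.fin (finite_singleton a)).le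

end Pool.Agent.MP_c6cf52_lc.W
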